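import Pool.Agent.V8H44.SG.Seq

/-!
One slowing down of a word generated by iterating a dgsm.
-/

set_option autoImplicit false

namespace Pool.Agent.V8H44.SG

open Pool.Agent.V8H41.DG Pool.Agent.V8H44.TS

theorem prefix_range {L : Type} {v : ℕ → L} {l : List L} {M : ℕ}
    (h : l <+: (List.range M).map v) : l = (List.range l.length).map v := by
  apply range_map_prefix
  intro i hi
  have h1 := h.length_le
  have h2 : i < ((List.range M).map v).length := by omega
  rw [prefix_get h i hi h2]
  simp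

/-- the lengths of the rounds -/
def rl {d p : ℕ} (δ : Fin p → Fin d → Fin p) (q0 : Fin p) (out : Fin p → Fin d → List (Fin d))
    (a : Fin d) (n : ℕ) : ℕ := (vw δ q0 out a n).1.length

theorem slow_step {d p : ℕ} {δ : Fin p → Fin d → Fin p} {q0 : Fin p}
    {out : Fin p → Fin d → List (Fin d)} {a : Fin d} {v : ℕ → Fin d}
    (hne : ∀ s x, out s x ≠ []) (hv : Iterates (dgsm δ q0 out) a v) :
    ∃ (e p' : ℕ) (δ' : Fin p' → Fin e → Fin p') (q0' : Fin p')
      (out' : Fin p' → Fin e → List (Fin e)) (b : Fin e) (v' : ℕ → Fin e)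
      (h : Fin e → Option (Fin d)) (μ : ℕ → ℕ),
      (∀ s x, out' s x ≠ []) ∧ Iterates (dgsm δ' q0' out') b v' ∧
      (∀ N, ((List.range N).map v').filterMap h = (List.range (μ N)).map v) ∧
      ∀ r, ((dgsm δ' q0' out')^[r + 1] [b]).length = ((dgsm δ' q0' out')^[r] [b]).length +
          rl δ q0 out a (ps (rl δ q0 out a) r).1 ∧
        ∀ N, ((dgsm δ' q0' out')^[r] [b]).length ≤ N →
          ((dgsm δ q0 out)^[(ps (rl δ q0 out a) r).1] [a]).length ≤ μ N := by
  obtain ⟨hv1, hv2, hv3⟩ := hv
  obtain ⟨Y, hY⟩ : ∃ Y : ℕ → List (Fin d), Y = fun n => (vw δ q0 out a n).1 := ⟨_, rfl⟩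
  obtain ⟨s, hs⟩ : ∃ s : ℕ → Fin p, s = fun n => (vw δ q0 out a n).2 := ⟨_, rfl⟩
  have h1 : ∀ n, Y (n + 1) = T δ out (s n) (Y n) := by
    intro n
    rw [hY, hs]
    rfl
  have h2 : ∀ n, s (n + 1) = dl δ (s n) (Y n) := by
    intro n
    rw [hY, hs]
    rfl
  have h3 : ∀ n, Y n ≠ [] := by
    intro n h
    have h4 := vw_mono (δ := δ) (q0 := q0) (a := a) hne (Nat.zero_le n)
    have h5 : (vw δ q0 out a n).1 = [] := by
      rw [hY] at h
      exact h
    rw [h5] at h4
    have h6 : (vw δ q0 out a 0).1 = (out q0 a).tail := rfl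
    rw [h6] at h4
    exact tail_ne hv1 hv2 (List.eq_nil_iff_length_eq_zero.2 (Nat.le_zero.1 h4))
  have hrl : rl δ q0 out a = fun n => (Y n).length := by
    rw [hY]
    rfl
  have hGo : ∀ n, (dgsm δ q0 out)^[n] [a] = Go a Y n := by
    intro n
    induction n with
    | zero => rfl
    | succ n ih =>
      rw [(stage hv1 n).1, ih, Go, hY]
  obtain ⟨p', ⟨eS⟩⟩ := Finite.exists_equiv_fin (Fin p × Ph)
  obtain ⟨e, ⟨eL⟩⟩ := Finite.exists_equiv_fin (Lt (Fin d))
  obtain ⟨δ', hδ'⟩ : ∃ δ' : Fin p' → Fin e → Fin p',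
    δ' = fun q' x => eS (dS δ (s 0) (eS.symm q') (eL.symm x)) := ⟨_, rfl⟩
  obtain ⟨out', hout'⟩ : ∃ out' : Fin p' → Fin e → List (Fin e),
    out' = fun q' x => (oS out (Y 0) (eS.symm q') (eL.symm x)).map eL := ⟨_, rfl⟩
  have hT : ∀ u : List (Lt (Fin d)), dgsm δ' (eS (q0, .cp)) out' (u.map eL) =
      (T (dS δ (s 0)) (oS out (Y 0)) (q0, .cp) u).map eL := by
    intro u
    rw [dgsm_eq, hδ', hout']
    exact T_conj (dS δ (s 0)) (oS out (Y 0)) eS eL u (q0, .cp)
  have hit : ∀ n, (dgsm δ' (eS (q0, .cp)) out')^[n] [eL none] = (Gs Y n).map eL := by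
    intro n
    induction n with
    | zero => rfl
    | succ n ih =>
      rw [Function.iterate_succ_apply', ih, hT, (Gs_step hne h1 h2 h3 (q0, .cp) n).1]
  have hpw : ∀ n, (pw Y n).map eL ≠ [] := by
    intro n h
    have h4 := congrArg List.length h
    rw [List.length_map, pw_length] at h4
    exact h3 _ (List.eq_nil_iff_length_eq_zero.2 h4)
  have hch : ∀ n, (Gs Y (n + 1)).map eL = (Gs Y n).map eL ++ (pw Y n).map eL := by
    intro n
    rw [← List.map_append]
    rfl
  have h00 : 0 < ((Gs Y 0).map eL).length := Nat.succ_pos _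
  obtain ⟨v', hv'⟩ := chain_limit (G := fun n => (Gs Y n).map eL) (X := fun n => (pw Y n).map eL)
    h00 hch hpw
  have hlen := chain_length (G := fun n => (Gs Y n).map eL) (X := fun n => (pw Y n).map eL)
    h00 hch hpw
  obtain ⟨h, hh⟩ : ∃ h : Fin e → Option (Fin d), h = fun x => hS a (eL.symm x) := ⟨_, rfl⟩
  have hfm : ∀ l : List (Lt (Fin d)), (l.map eL).filterMap h = l.filterMap (hS a) := by
    intro l
    rw [List.filterMap_map, hh]
    congr 1
    funext x
    simp
  have hvG : ∀ n, (List.range ((Gs Y n).map eL).length).map v' = (Gs Y n).map eL := by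
    intro n
    exact (range_map_prefix (hv' n)).symm
  have hvo : ∀ n, Go a Y n = (List.range (Go a Y n).length).map v := by
    intro n
    apply range_map_prefix
    intro i hi
    have h4 := hv3 n i (by rw [hGo]; exact hi)
    rw [← h4]
    simp only [hGo]
  have hpre : ∀ n N, N ≤ ((Gs Y n).map eL).length →
      ((List.range N).map v').filterMap h <+: Go a Y (ms (fun n => (Y n).length) n) := by
    intro n N hN
    have h4 := range_map_le v' hN
    rw [hvG] at h4
    have h5 := List.IsPrefix.filterMap h4 (f := h)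
    rw [hfm, fm_Gs (a := a) h3] at h5
    exact h5
  refine ⟨e, p', δ', eS (q0, .cp), out', eL none, v', h,
    fun N => (((List.range N).map v').filterMap h).length, ?_, ⟨?_, ?_, ?_⟩, ?_, ?_⟩
  · intro q x h
    rw [hout'] at h
    exact oS_ne hne _ _ (List.map_eq_nil_iff.1 h)
  · have h4 := hit 1
    rw [Function.iterate_one] at h4
    rw [h4, hch]
    exact List.prefix_append _ _
  · intro N
    refine ⟨N, ?_⟩
    rw [hit]
    exact (hlen N).le
  · intro n i hi
    simp only [hit]
    exact hv' n i (by rw [hit] at hi; exact hi)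
  · intro N
    have h4 := hpre N N (hlen N).le
    rw [hvo] at h4
    exact prefix_range h4
  · intro r
    rw [hit, hit, hrl]
    constructor
    · rw [hch, List.length_append, List.length_map (as := pw Y r), pw_length]
    · intro N hN
      show _ ≤ (((List.range N).map v').filterMap h).length
      have h4 := List.IsPrefix.filterMap (range_map_le v' hN) (f := h)
      rw [hvG, hfm, fm_Gs (a := a) h3] at h4
      have h5 := h4.length_le
      refine le_trans ?_ h5
      rw [hGo]
      have h6 : Go a Y (ps (fun n => (Y n).length) r).1 <+: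
          Go a Y (ms (fun n => (Y n).length) r) :=
        chain_prefix (G := Go a Y) (X := Y) (fun n => rfl) (Nat.le_add_right _ _)
      exact h6.length_le

end Pool.Agent.V8H44.SG
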