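import Pool.Agent.V8H44.SG.Reg
import Pool.Agent.V8H44.SG.Step

/-!
Words of slow growth.
-/

set_option autoImplicit false

namespace Pool.Agent.V8H44.SG

open Pool.Agent.V8H41.DG Pool.Agent.V8H44.TS

theorem rl_eq {d p : ℕ} {δ : Fin p → Fin d → Fin p} {q0 : Fin p}
    {out : Fin p → Fin d → List (Fin d)} {a : Fin d} {v : ℕ → Fin d}
    (hv : Iterates (dgsm δ q0 out) a v) (n : ℕ) :
    ((dgsm δ q0 out)^[n + 1] [a]).length = ((dgsm δ q0 out)^[n] [a]).length + rl δ q0 out a n :=
  stage_length hv.1 n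

theorem sq_aux {C r X : ℕ} (h : r ^ 2 ≤ 4 * (C * X ^ 2)) : r ≤ 2 * (C + 1) * X := by
  by_contra hcon
  push Not at hcon
  have h1 : (2 * (C + 1) * X) ^ 2 < r ^ 2 := Nat.pow_lt_pow_left hcon two_ne_zero
  have h2 : 4 * (C * X ^ 2) ≤ (2 * (C + 1) * X) ^ 2 := by
    have h3 : (2 * (C + 1) * X) ^ 2 = 4 * ((C + 1) ^ 2 * X ^ 2) := by ring
    rw [h3]
    apply Nat.mul_le_mul_left
    apply Nat.mul_le_mul_right
    nlinarith
  omega

/-- **Words of slow growth.** -/
theorem exists_slow {d p : ℕ} {δ : Fin p → Fin d → Fin p} {q0 : Fin p}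
    {out : Fin p → Fin d → List (Fin d)} {a : Fin d} {w : ℕ → Fin d}
    (hne : ∀ s x, out s x ≠ []) (hw : Iterates (dgsm δ q0 out) a w) (k : ℕ) :
    ∃ (e p' : ℕ) (δ' : Fin p' → Fin e → Fin p') (q0' : Fin p')
      (out' : Fin p' → Fin e → List (Fin e)) (b : Fin e) (v : ℕ → Fin e)
      (h : Fin e → Option (Fin d)) (ν : ℕ → ℕ) (L c : ℕ),
      (∀ s x, out' s x ≠ []) ∧ Iterates (dgsm δ' q0' out') b v ∧
      (∀ N, ((List.range N).map v).filterMap h = (List.range (ν N)).map w) ∧
      Reg k L (rl δ' q0' out' b) ∧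
      ∀ r N, ((dgsm δ' q0' out')^[r] [b]).length ≤ N → rl δ' q0' out' b r ≤ c * (ν N + 1) := by
  induction k with
  | zero =>
    obtain ⟨e, δ', out', b, v, h, L, C, h1, h2, h3, ν, h4⟩ := exists_two hne hw
    have h5 : ∀ n, rl δ' 0 out' b n = L + n := by
      intro n
      have h6 := rl_eq h2 n
      have h7 := h3 n
      omega
    refine ⟨e, 2, δ', 0, out', b, v, h, ν, L, L + 2 * (C + 1), h1, h2, fun N => (h4 N).1,
      Reg.base rfl h5, ?_⟩
    intro r N hN
    rw [h5]
    have h6 := (h4 N).2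
    have h7 : ∀ r, r ^ 2 ≤ 4 * ((dgsm δ' 0 out')^[r] [b]).length := by
      intro r
      have h8 : ∀ r, r ^ 2 + 3 ≤ 4 * ((dgsm δ' 0 out')^[r] [b]).length + r := by
        intro r
        induction r with
        | zero => show 0 ^ 2 + 3 ≤ 4 * 1 + 0; norm_num
        | succ r ih =>
          rw [h3 r]
          nlinarith
      rcases Nat.lt_or_ge r 4 with h9 | h9
      · have h10 := h8 r
        omega
      · have h10 : ∀ r, 2 * r ^ 2 ≤ 4 * ((dgsm δ' 0 out')^[r] [b]).length + 2 * r := by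
          intro r
          induction r with
          | zero => exact Nat.zero_le _
          | succ r ih =>
            rw [h3 r]
            nlinarith
        have h11 := h10 r
        nlinarith
    have h8 : r ^ 2 ≤ 4 * (C * (ν N + 1) ^ 2) := by
      have := h7 r
      omega
    have h9 := sq_aux h8
    nlinarith [Nat.zero_le (L * ν N)]
  | succ k ih =>
    obtain ⟨e, p', δ', q0', out', b, v, h, ν, L, c, h1, h2, h3, h4, h5⟩ := ih
    obtain ⟨e', p'', δ'', q0'', out'', b', v', h', μ, k1, k2, k3, k4⟩ := slow_step h1 h2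
    have h6 : rl δ'' q0'' out'' b' = fun r => rl δ' q0' out' b (ps (rl δ' q0' out' b) r).1 := by
      funext r
      have h7 := rl_eq k2 r
      have h8 := (k4 r).1
      omega
    refine ⟨e', p'', δ'', q0'', out'', b', v', fun x => (h' x).bind h, fun N => ν (μ N), L, c, k1,
      k2, ?_, ?_, ?_⟩
    · intro N
      rw [← h3, ← k3, List.filterMap_filterMap]
    · rw [h6]
      exact h4.step
    · intro r N hN
      rw [h6]
      exact h5 _ _ ((k4 r).2 N hN)

variable {d e : ℕ} {v : ℕ → Fin e} {w : ℕ → Fin d} {h : Fin e → Option (Fin d)} {C E : ℕ}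
  {ν : ℕ → ℕ}

/-- machines for codings -/
theorem gen_cod (hν : ∀ N, ((List.range N).map v).filterMap h = (List.range (ν N)).map w ∧
      N ≤ C * (ν N + 1) ^ E) {s : ℕ → ℕ} (hG : Generates v s) :
    Generates w (fun n => s (C * n ^ E + 1)) := by
  obtain ⟨m, k, g, δM, conf, h1, h2, h3, h4, h5⟩ := hG
  have hout : ∀ t, (conf t).2.2.2 = (List.range (conf t).2.2.2.length).map v := by
    intro t
    apply List.ext_getElem
    · simp
    · intro i hi hi'
      rw [h3 t i hi]
      simp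
  have hlen : ∀ t, ((conf t).2.2.2.filterMap h) =
      (List.range (ν (conf t).2.2.2.length)).map w := by
    intro t
    conv_lhs => rw [hout t]
    exact (hν _).1
  have hlen2 : ∀ t, ((conf t).2.2.2.filterMap h).length = ν (conf t).2.2.2.length := by
    intro t
    rw [hlen]
    simp
  refine ⟨m, k, g, fun q x => ((δM q x).1, (δM q x).2.1, (δM q x).2.2.1, (δM q x).2.2.2.bind h),
    fun t => ((conf t).1, (conf t).2.1, (conf t).2.2.1, (conf t).2.2.2.filterMap h), ?_, ?_, ?_,
    ?_, ?_⟩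
  · simp only [h1]
    rfl
  · intro t
    simp only
    rw [h2 t]
    simp only [Prod.mk.injEq, true_and]
    rw [List.filterMap_append]
    congr 1
    cases (δM (conf t).1 fun j' => (conf t).2.1 j' ((conf t).2.2.1 j')).2.2.2 with
    | none => rfl
    | some x =>
      cases hx : h x with
      | none => simp [hx]
      | some y => simp [hx]
  · intro t i hi
    simp only at hi ⊢
    simp only [hlen t]
    simp
  · intro n
    obtain ⟨t, ht⟩ := h4 (C * n ^ E + 1)
    refine ⟨t, ?_⟩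
    simp only
    rw [hlen2]
    by_contra hcon
    push Not at hcon
    have h6 := (hν (conf t).2.2.2.length).2
    have h7 : C * (ν (conf t).2.2.2.length + 1) ^ E ≤ C * n ^ E :=
      Nat.mul_le_mul_left _ (Nat.pow_le_pow_left hcon E)
    omega
  · intro n t hn ht j
    refine h5 (C * n ^ E + 1) t (Nat.succ_pos _) ?_ j
    intro t' ht'
    have h6 := ht t' ht'
    simp only at h6
    rw [hlen2] at h6
    have h7 := (hν (conf t').2.2.2.length).2
    have h8 : C * (ν (conf t').2.2.2.length + 1) ^ E ≤ C * n ^ E :=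
      Nat.mul_le_mul_left _ (Nat.pow_le_pow_left h6 E)
    omega

theorem log_bd (C E n : ℕ) (hn : 1 ≤ n) :
    Nat.log 2 (C * n ^ E + 1) + 1 ≤ (Nat.log 2 (C + 1) + 1 + E) * (Nat.log 2 n + 1) := by
  have h1 : C * n ^ E + 1 < 2 ^ (Nat.log 2 (C + 1) + 1 + E * (Nat.log 2 n + 1)) := by
    have h2 : C + 1 < 2 ^ (Nat.log 2 (C + 1) + 1) := Nat.lt_pow_succ_log_self one_lt_two _
    have h3 : n < 2 ^ (Nat.log 2 n + 1) := Nat.lt_pow_succ_log_self one_lt_two _
    have h4 : n ^ E ≤ 2 ^ (E * (Nat.log 2 n + 1)) := by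
      rw [mul_comm, pow_mul]
      exact Nat.pow_le_pow_left h3.le _
    have h5 : 1 ≤ n ^ E := Nat.one_le_pow _ _ hn
    have h6 : 0 < 2 ^ (E * (Nat.log 2 n + 1)) := by positivity
    calc C * n ^ E + 1 ≤ (C + 1) * n ^ E := by
          rw [Nat.add_mul, Nat.one_mul]
          omega
      _ ≤ (C + 1) * 2 ^ (E * (Nat.log 2 n + 1)) := Nat.mul_le_mul_left _ h4
      _ < 2 ^ (Nat.log 2 (C + 1) + 1) * 2 ^ (E * (Nat.log 2 n + 1)) :=
          Nat.mul_lt_mul_of_pos_right h2 h6
      _ = _ := (pow_add _ _ _).symm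
  have h2 := Nat.log_lt_of_lt_pow (by omega) h1
  have h3 : Nat.log 2 (C + 1) + 1 + E * (Nat.log 2 n + 1) ≤
      (Nat.log 2 (C + 1) + 1 + E) * (Nat.log 2 n + 1) := by
    nlinarith [Nat.zero_le (Nat.log 2 (C + 1) * Nat.log 2 n)]
  omega

theorem gen_lg (hν : ∀ N, ((List.range N).map v).filterMap h = (List.range (ν N)).map w ∧
      N ≤ C * (ν N + 1) ^ E) (hE : 0 < E) {c : ℕ}
    (hG : Generates v (fun n => c * (Nat.log 2 n + 1))) :
    Generates w (fun n => c * (Nat.log 2 (C + 1) + 1 + E) * (Nat.log 2 n + 1)) := by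
  refine (gen_cod hν hG).mono fun n => ?_
  rw [mul_assoc]
  apply Nat.mul_le_mul_left
  rcases Nat.eq_zero_or_pos n with h0 | h0
  · subst h0
    rw [zero_pow (by omega)]
    simp
    omega
  · exact log_bd C E n h0

end Pool.Agent.V8H44.SG
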