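import Pool.Agent.V8H44.SG.Seq

/-!
The lengths of the rounds.
-/

set_option autoImplicit false

namespace Pool.Agent.V8H44.SG

/-- the number of the rounds with fewer than `x` letters -/
def Ak (k L x : ℕ) : ℕ := ∑ y ∈ Finset.Ico L x, (y + 1) ^ k

theorem Ak_mono (k L : ℕ) {x y : ℕ} (h : x ≤ y) : Ak k L x ≤ Ak k L y :=
  Finset.sum_le_sum_of_subset (Finset.Ico_subset_Ico_right h)

theorem Ak_succ (k : ℕ) {L x : ℕ} (h : L ≤ x) : Ak k L (x + 1) = Ak k L x + (x + 1) ^ k :=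
  Finset.sum_Ico_succ_top h _

theorem Ak_zero (k : ℕ) {L x : ℕ} (h : x ≤ L) : Ak k L x = 0 := by
  unfold Ak
  rw [Finset.Ico_eq_empty (by omega)]
  rfl

/-- the rounds get longer, and the number of the rounds with `x` letters is `(x + 1) ^ k` -/
def Reg (k L : ℕ) (len : ℕ → ℕ) : Prop := ∀ r, Ak k L (len r) ≤ r ∧ r < Ak k L (len r + 1)

theorem Reg.le {k L : ℕ} {len : ℕ → ℕ} (h : Reg k L len) (r : ℕ) : L ≤ len r := by
  by_contra hcon
  have := (h r).2
  rw [Ak_zero k (by omega)] at this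
  omega

theorem Reg.mono {k L : ℕ} {len : ℕ → ℕ} (h : Reg k L len) {m r : ℕ} (hm : m ≤ r) :
    len m ≤ len r := by
  by_contra hcon
  have h1 := Ak_mono k L (show len r + 1 ≤ len m by omega)
  have h2 := (h m).1
  have h3 := (h r).2
  omega

theorem Reg.base {k L : ℕ} {len : ℕ → ℕ} (hk : k = 0) (h : ∀ n, len n = L + n) :
    Reg k L len := by
  subst hk
  have h1 : ∀ n, Ak 0 L (L + n) = n := by
    intro n
    unfold Ak
    simp
  intro r
  rw [h, h1, show L + r + 1 = L + (r + 1) by ring, h1]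
  omega

/-- the number of the new rounds before the stage `n` -/
def Rn (len : ℕ → ℕ) (n : ℕ) : ℕ := ∑ m ∈ Finset.range n, (len m + 1)

theorem Rn_succ (len : ℕ → ℕ) (n : ℕ) : Rn len (n + 1) = Rn len n + (len n + 1) :=
  Finset.sum_range_succ _ _

theorem ps_eq (len : ℕ → ℕ) (r : ℕ) : r = Rn len (ps len r).1 + (ps len r).2 := by
  induction r with
  | zero => rfl
  | succ r ih =>
    have hle := ps_le len r
    rw [ps]
    split_ifs with h
    · show r + 1 = Rn len (ps len r).1 + ((ps len r).2 + 1)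
      omega
    · show r + 1 = Rn len ((ps len r).1 + 1) + 0
      rw [Rn_succ]
      omega

theorem Reg.Rn_eq {k L : ℕ} {len : ℕ → ℕ} (h : Reg k L len) (n : ℕ) :
    ∃ j, n = Ak k L (len n) + j ∧ Rn len n = Ak (k + 1) L (len n) + j * (len n + 1) ∧
      j < (len n + 1) ^ k := by
  induction n with
  | zero =>
    have h1 := (h 0).1
    have h2 := h.le 0
    have h3 : len 0 = L := by
      by_contra hcon
      have h4 : L + 1 ≤ len 0 := by omega
      have h5 := Ak_mono k L h4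
      rw [Ak_succ k le_rfl] at h5
      have h6 : 0 < (L + 1) ^ k := by positivity
      omega
    refine ⟨0, ?_, ?_, by positivity⟩
    · rw [h3, Ak_zero k le_rfl]
    · rw [h3, Ak_zero (k + 1) le_rfl]
      simp [Rn]
  | succ n ih =>
    obtain ⟨j, h1, h2, h3⟩ := ih
    obtain ⟨x, hx⟩ : ∃ x, x = len n := ⟨_, rfl⟩
    obtain ⟨y, hy⟩ : ∃ y, y = len (n + 1) := ⟨_, rfl⟩
    have hLx : L ≤ x := hx ▸ h.le n
    have h4 := h (n + 1)
    rw [Rn_succ]
    rw [← hx] at h1 h2 h3 ⊢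
    rw [← hy] at h4 ⊢
    have h5 := Ak_succ k hLx
    have h5' := Ak_succ (k + 1) hLx
    rcases Nat.lt_or_ge (j + 1) ((x + 1) ^ k) with h6 | h6
    · have h7 : y = x := by
        apply le_antisymm
        · by_contra hcon
          have := Ak_mono k L (show x + 1 ≤ y by omega)
          omega
        · by_contra hcon
          have := Ak_mono k L (show y + 1 ≤ x by omega)
          omega
      rw [h7]
      refine ⟨j + 1, by omega, ?_, h6⟩
      rw [h2]
      ring
    · have h8 : j + 1 = (x + 1) ^ k := by omega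
      have h7 : y = x + 1 := by
        apply le_antisymm
        · by_contra hcon
          have h9 := Ak_mono k L (show x + 1 + 1 ≤ y by omega)
          rw [Ak_succ k (show L ≤ x + 1 by omega)] at h9
          have h10 : 0 < (x + 1 + 1) ^ k := by positivity
          omega
        · by_contra hcon
          have := Ak_mono k L (show y + 1 ≤ x + 1 by omega)
          omega
      rw [h7]
      refine ⟨0, by omega, ?_, by positivity⟩
      rw [h2, h5', pow_succ, ← h8]
      ring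

theorem Reg.step {k L : ℕ} {len : ℕ → ℕ} (h : Reg k L len) :
    Reg (k + 1) L (fun r => len (ps len r).1) := by
  intro r
  have h1 := ps_eq len r
  have h2 := ps_le len r
  obtain ⟨n, hn⟩ : ∃ n, n = (ps len r).1 := ⟨_, rfl⟩
  obtain ⟨i, hi⟩ : ∃ i, i = (ps len r).2 := ⟨_, rfl⟩
  rw [← hn, ← hi] at h1 h2
  show Ak (k + 1) L (len (ps len r).1) ≤ r ∧ r < Ak (k + 1) L (len (ps len r).1 + 1)
  rw [← hn]
  obtain ⟨j, h3, h4, h5⟩ := h.Rn_eq n
  rw [Ak_succ (k + 1) (h.le n), h1, h4]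
  have h6 : (j + 1) * (len n + 1) ≤ (len n + 1) ^ k * (len n + 1) := Nat.mul_le_mul_right _ h5
  rw [pow_succ]
  constructor
  · omega
  · nlinarith

theorem pow_diff (x k : ℕ) : (x + 1) ^ (k + 1) ≤ x ^ (k + 1) + (k + 1) * (x + 1) ^ k := by
  induction k with
  | zero => simp
  | succ k ih =>
    have h1 : (x + 1) ^ (k + 1 + 1) = x * (x + 1) ^ (k + 1) + (x + 1) ^ (k + 1) := by ring
    have h2 : x * (x + 1) ^ (k + 1) ≤ x * (x ^ (k + 1) + (k + 1) * (x + 1) ^ k) :=
      Nat.mul_le_mul_left _ ih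
    have h3 : x * (x + 1) ^ k ≤ (x + 1) ^ (k + 1) := by
      rw [pow_succ, mul_comm ((x + 1) ^ k)]
      exact Nat.mul_le_mul_right _ (Nat.le_succ x)
    have h4 : (k + 1) * (x * (x + 1) ^ k) ≤ (k + 1) * (x + 1) ^ (k + 1) :=
      Nat.mul_le_mul_left _ h3
    have h5 : x * (x ^ (k + 1) + (k + 1) * (x + 1) ^ k) =
        x ^ (k + 1 + 1) + (k + 1) * (x * (x + 1) ^ k) := by ring
    have h6 : (k + 1 + 1) * (x + 1) ^ (k + 1) =
        (k + 1) * (x + 1) ^ (k + 1) + (x + 1) ^ (k + 1) := by ring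
    omega

theorem Ak_lower (k L x : ℕ) (h : L ≤ x) : x ^ (k + 1) ≤ (k + 1) * Ak k L x + L ^ (k + 1) := by
  induction x, h using Nat.le_induction with
  | base => exact Nat.le_add_left _ _
  | succ x hx ih =>
    rw [Ak_succ k hx]
    have := pow_diff x k
    nlinarith

theorem Ak_upper (k L x : ℕ) : Ak k L x ≤ x ^ (k + 1) := by
  induction x with
  | zero => rw [Ak_zero k (Nat.zero_le _)]; exact Nat.zero_le _
  | succ x ih =>
    rcases Nat.lt_or_ge x L with h | h
    · rw [Ak_zero k h]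
      exact Nat.zero_le _
    · rw [Ak_succ k h]
      have h1 : x ^ (k + 1) ≤ x * (x + 1) ^ k := by
        rw [pow_succ, mul_comm]
        exact Nat.mul_le_mul_left _ (Nat.pow_le_pow_left (Nat.le_succ x) k)
      have h2 : (x + 1) ^ (k + 1) = x * (x + 1) ^ k + (x + 1) ^ k := by ring
      omega

section

variable {k L : ℕ} {len gl : ℕ → ℕ}

theorem gl_le (h0 : gl 0 = 1) (h1 : ∀ r, gl (r + 1) = gl r + len r) (B : ℕ) : ∀ r,
    (∀ m, m < r → len m ≤ B) → gl r ≤ 1 + r * B := by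
  intro r
  induction r with
  | zero => intro _; omega
  | succ r ih =>
    intro h
    rw [h1]
    have h2 := ih (fun m hm => h m (by omega))
    have h3 := h r (Nat.lt_succ_self r)
    nlinarith

/-- the growth -/
theorem Reg.growth (h : Reg k L len) (h0 : gl 0 = 1) (h1 : ∀ r, gl (r + 1) = gl r + len r)
    (r : ℕ) : gl r ^ (k + 1) ≤ (2 ^ (k + 1) * (k + 1 + L ^ (k + 1)) + 1) * (r + 1) ^ (k + 2) := by
  have h2 := gl_le h0 h1 (len r) r (fun m hm => h.mono hm.le)
  have h3 : gl r ≤ (r + 1) * (len r + 1) := by nlinarith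
  have h4 : gl r ^ (k + 1) ≤ (r + 1) ^ (k + 1) * (len r + 1) ^ (k + 1) := by
    rw [← mul_pow]
    exact Nat.pow_le_pow_left h3 _
  have h5 : (len r) ^ (k + 1) ≤ (k + 1) * r + L ^ (k + 1) :=
    (Ak_lower k L (len r) (h.le r)).trans
      (Nat.add_le_add_right (Nat.mul_le_mul_left _ (h r).1) _)
  have h6 : (len r + 1) ^ (k + 1) ≤ 2 ^ (k + 1) * (len r) ^ (k + 1) + 1 := by
    rcases Nat.eq_zero_or_pos (len r) with h7 | h7
    · rw [h7]
      simp
    · rw [← mul_pow]
      exact (Nat.pow_le_pow_left (by omega) _).trans (Nat.le_succ _)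
  have h7 : (len r + 1) ^ (k + 1) ≤ (2 ^ (k + 1) * (k + 1 + L ^ (k + 1)) + 1) * (r + 1) := by
    have h8 : 2 ^ (k + 1) * (len r) ^ (k + 1) ≤ 2 ^ (k + 1) * ((k + 1) * r + L ^ (k + 1)) :=
      Nat.mul_le_mul_left _ h5
    have h9 : (k + 1) * r + L ^ (k + 1) ≤ (k + 1 + L ^ (k + 1)) * (r + 1) := by
      nlinarith [Nat.zero_le (L ^ (k + 1) * r)]
    have h10 : 2 ^ (k + 1) * ((k + 1) * r + L ^ (k + 1)) ≤
        2 ^ (k + 1) * ((k + 1 + L ^ (k + 1)) * (r + 1)) := Nat.mul_le_mul_left _ h9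
    have h11 : (2 ^ (k + 1) * (k + 1 + L ^ (k + 1)) + 1) * (r + 1) =
        2 ^ (k + 1) * ((k + 1 + L ^ (k + 1)) * (r + 1)) + (r + 1) := by ring
    omega
  calc gl r ^ (k + 1) ≤ (r + 1) ^ (k + 1) * (len r + 1) ^ (k + 1) := h4
    _ ≤ (r + 1) ^ (k + 1) * ((2 ^ (k + 1) * (k + 1 + L ^ (k + 1)) + 1) * (r + 1)) :=
        Nat.mul_le_mul_left _ h7
    _ = _ := by ring

/-- the delay -/
theorem Reg.delay (h : Reg k L len) (h0 : gl 0 = 1) (h1 : ∀ r, gl (r + 1) = gl r + len r)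
    (hlen : ∀ N, ∃ r, N < gl r) {ν : ℕ → ℕ} {c : ℕ}
    (hK : ∀ r N, gl r ≤ N → len r ≤ c * (ν N + 1)) (N : ℕ) :
    N ≤ (c + 1) ^ (k + 2) * (ν N + 1) ^ (k + 2) := by
  rcases Nat.eq_zero_or_pos N with hN | hN
  · subst hN
    exact Nat.zero_le _
  · have h2 := Nat.find_spec (hlen N)
    obtain ⟨r', hr'⟩ : ∃ r', r' = Nat.find (hlen N) := ⟨_, rfl⟩
    rw [← hr'] at h2
    have h3 : r' ≠ 0 := by
      intro h4
      rw [h4, h0] at h2
      omega
    obtain ⟨r, rfl⟩ := Nat.exists_eq_succ_of_ne_zero h3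
    have h4 : gl r ≤ N := by
      have := Nat.find_min (hlen N) (m := r) (by rw [← hr']; exact Nat.lt_succ_self r)
      omega
    have h5 := hK r N h4
    have h6 := gl_le h0 h1 (len r) (r + 1) (fun m hm => h.mono (by omega))
    have h7 : r + 1 ≤ (len r + 1) ^ (k + 1) :=
      (Nat.succ_le_of_lt (h r).2).trans (Ak_upper k L _)
    have h2' : N < gl (r + 1) := h2
    have h8 : (r + 1) * len r ≤ (len r + 1) ^ (k + 1) * len r := Nat.mul_le_mul_right _ h7
    have h9 : (len r + 1) ^ (k + 2) = (len r + 1) ^ (k + 1) * len r + (len r + 1) ^ (k + 1) := by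
      ring
    have h10 : N ≤ (len r + 1) ^ (k + 2) := by
      have : 0 < (len r + 1) ^ (k + 1) := by positivity
      omega
    refine h10.trans ?_
    rw [← mul_pow]
    apply Nat.pow_le_pow_left
    nlinarith

end

end Pool.Agent.V8H44.SG
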