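import Pool.Agent.V8H44.SG.Slow

/-!
The sequence of the copies.
-/

set_option autoImplicit false

namespace Pool.Agent.V8H44.SG

open Pool.Agent.V8H41.DG

/-- the stage and the number of the copy -/
def ps (len : ℕ → ℕ) : ℕ → ℕ × ℕ
  | 0 => (0, 0)
  | r + 1 => if (ps len r).2 < len (ps len r).1 then ((ps len r).1, (ps len r).2 + 1)
      else ((ps len r).1 + 1, 0)

theorem ps_le (len : ℕ → ℕ) (r : ℕ) : (ps len r).2 ≤ len (ps len r).1 := by
  induction r with
  | zero => exact Nat.zero_le _
  | succ r ih =>
    rw [ps]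
    split_ifs with h
    · exact h
    · exact Nat.zero_le _

/-- the number of the original stages which are complete -/
def ms (len : ℕ → ℕ) (r : ℕ) : ℕ := (ps len r).1 + if (ps len r).2 = 0 then 0 else 1

section

variable {S L : Type} {δ : S → L → S} {out : S → L → List L} {Y : ℕ → List L} {s : ℕ → S} {a : L}

/-- the words of the rounds -/
def pw (Y : ℕ → List L) (r : ℕ) : List (Lt L) :=
  an (decide ((ps (fun n => (Y n).length) r).2 = 0)) true
    (if (ps (fun n => (Y n).length) r).2 < (Y (ps (fun n => (Y n).length) r).1).length then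
      some (ps (fun n => (Y n).length) r).2 else none) (Y (ps (fun n => (Y n).length) r).1)

/-- the states of the rounds -/
def sw (Y : ℕ → List L) (s : ℕ → S) (r : ℕ) : S × Ph :=
  (s (ps (fun n => (Y n).length) r).1,
    if (ps (fun n => (Y n).length) r).2 < (Y (ps (fun n => (Y n).length) r).1).length then .cp
      else .rf)

theorem pw_step (hne : ∀ q x, out q x ≠ []) (h1 : ∀ n, Y (n + 1) = T δ out (s n) (Y n))
    (h2 : ∀ n, s (n + 1) = dl δ (s n) (Y n)) (h3 : ∀ n, Y n ≠ []) (r : ℕ) :
    T (dS δ (s 0)) (oS out (Y 0)) (sw Y s r) (pw Y r) = pw Y (r + 1) ∧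
      dl (dS δ (s 0)) (sw Y s r) (pw Y r) = sw Y s (r + 1) := by
  unfold pw sw
  obtain ⟨n, i, hni⟩ : ∃ n i, ps (fun n => (Y n).length) r = (n, i) := ⟨_, _, rfl⟩
  have hle : i ≤ (Y n).length := by
    have := ps_le (fun n => (Y n).length) r
    rw [hni] at this
    exact this
  have hs : ps (fun n => (Y n).length) (r + 1) =
      if i < (Y n).length then (n, i + 1) else (n + 1, 0) := by
    rw [ps, hni]
  rw [hs, hni]
  by_cases h : i < (Y n).length
  · simp only [if_pos h]
    have h4 := copy_mark (δ := δ) (out := out) (q1 := s 0) (X := Y 0) (decide (i = 0)) (s n)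
      (Y n) i h
    rw [h4.1, h4.2]
    refine ⟨?_, rfl⟩
    congr 1
  · simp only [if_neg h]
    have h5 : i ≠ 0 := by
      intro h0
      subst h0
      exact h (List.length_pos_iff.2 (h3 n))
    have h4 := rf_none (δ := δ) (q1 := s 0) (X := Y 0) hne (decide (i = 0)) (h3 n) (s n)
    rw [h4.1, h4.2, ← h1, ← h2]
    have h6 : 0 < (Y (n + 1)).length := List.length_pos_iff.2 (h3 (n + 1))
    rw [if_pos h6, if_pos h6]
    exact ⟨by simp, rfl⟩

/-- the iterates -/
def Gs (Y : ℕ → List L) : ℕ → List (Lt L)
  | 0 => [none]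
  | r + 1 => Gs Y r ++ pw Y r

theorem Gs_step (hne : ∀ q x, out q x ≠ []) (h1 : ∀ n, Y (n + 1) = T δ out (s n) (Y n))
    (h2 : ∀ n, s (n + 1) = dl δ (s n) (Y n)) (h3 : ∀ n, Y n ≠ []) (q0 : S × Ph) (r : ℕ) :
    T (dS δ (s 0)) (oS out (Y 0)) q0 (Gs Y r) = Gs Y (r + 1) ∧
      dl (dS δ (s 0)) q0 (Gs Y r) = sw Y s r := by
  induction r with
  | zero =>
    have h6 : 0 < (Y 0).length := List.length_pos_iff.2 (h3 0)
    have h7 : ps (fun n => (Y n).length) 0 = (0, 0) := rfl
    constructor
    · show T _ _ q0 [none] = [none] ++ pw Y 0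
      unfold pw
      rw [T, T, List.append_nil, h7, if_pos h6]
      obtain ⟨q, ph⟩ := q0
      rfl
    · show dl _ q0 [none] = sw Y s 0
      unfold sw
      rw [dl, dl, h7, if_pos h6]
      obtain ⟨q, ph⟩ := q0
      rfl
  | succ r ih =>
    have h4 := pw_step hne h1 h2 h3 r
    constructor
    · show T _ _ q0 (Gs Y r ++ pw Y r) = Gs Y (r + 1) ++ pw Y (r + 1)
      rw [T_append, ih.1, ih.2, h4.1]
    · show dl _ q0 (Gs Y r ++ pw Y r) = _
      rw [dl_append, ih.2, h4.2]

theorem pw_length (r : ℕ) :
    (pw Y r).length = (Y (ps (fun n => (Y n).length) r).1).length := by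
  unfold pw
  rw [an_length]

/-- the letter of the original word -/
def hS (a : L) : Lt L → Option L
  | none => some a
  | some (x, _, _, f) => if f = true then some x else none

theorem fm_true (a : L) (e : Bool) (l : List L) : ∀ mk, (an true e mk l).filterMap (hS a) = l := by
  induction l with
  | nil => intro mk; rfl
  | cons x l ih =>
    intro mk
    show (some (x, _, _, true) :: an true e (dc mk) l).filterMap (hS a) = _
    rw [List.filterMap_cons_some (b := x) (by simp [hS]), ih]

theorem fm_false (a : L) (e : Bool) (l : List L) : ∀ mk,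
    (an false e mk l).filterMap (hS a) = [] := by
  induction l with
  | nil => intro mk; rfl
  | cons x l ih =>
    intro mk
    show (some (x, _, _, false) :: an false e (dc mk) l).filterMap (hS a) = _
    rw [List.filterMap_cons_none (by simp [hS]), ih]

/-- the original iterates -/
def Go (a : L) (Y : ℕ → List L) : ℕ → List L
  | 0 => [a]
  | n + 1 => Go a Y n ++ Y n

theorem fm_Gs (h3 : ∀ n, Y n ≠ []) (r : ℕ) :
    (Gs Y r).filterMap (hS a) = Go a Y (ms (fun n => (Y n).length) r) := by
  induction r with
  | zero => rfl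
  | succ r ih =>
    show (Gs Y r ++ pw Y r).filterMap (hS a) = _
    rw [List.filterMap_append, ih]
    unfold ms pw
    obtain ⟨n, i, hni⟩ : ∃ n i, ps (fun n => (Y n).length) r = (n, i) := ⟨_, _, rfl⟩
    have hs : ps (fun n => (Y n).length) (r + 1) =
        if i < (Y n).length then (n, i + 1) else (n + 1, 0) := by
      rw [ps, hni]
    rw [hs, hni]
    by_cases h0 : i = 0
    · subst h0
      have h6 : 0 < (Y n).length := List.length_pos_iff.2 (h3 n)
      simp only [if_pos h6, decide_true, fm_true, if_true]
      rfl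
    · have h7 : decide (i = 0) = false := by simpa using h0
      simp only [h7, fm_false, List.append_nil, if_neg h0]
      by_cases h : i < (Y n).length
      · simp only [if_pos h]
        rw [if_neg (Nat.succ_ne_zero i)]
      · simp only [if_neg h]
        rfl

end

section chain

variable {L : Type} {b : L} {X : ℕ → List L} {G : ℕ → List L}

theorem chain_prefix (hG : ∀ n, G (n + 1) = G n ++ X n) {m n : ℕ} (h : m ≤ n) : G m <+: G n := by
  induction n with
  | zero =>
    have : m = 0 := by omega
    subst this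
    exact List.prefix_refl _
  | succ n ih =>
    rcases Nat.lt_or_ge n m with h1 | h1
    · have : m = n + 1 := by omega
      subst this
      exact List.prefix_refl _
    · rw [hG]
      exact (ih h1).trans (List.prefix_append _ _)

theorem chain_length (h0 : 0 < (G 0).length) (hG : ∀ n, G (n + 1) = G n ++ X n)
    (hX : ∀ n, X n ≠ []) (n : ℕ) : n < (G n).length := by
  induction n with
  | zero => exact h0
  | succ n ih =>
    rw [hG, List.length_append]
    have : 0 < (X n).length := List.length_pos_iff.2 (hX n)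
    omega

theorem prefix_get {l l' : List L} (h : l <+: l') (i : ℕ) (hi : i < l.length)
    (hi' : i < l'.length) : l[i] = l'[i] := by
  obtain ⟨t, rfl⟩ := h
  rw [List.getElem_append_left hi]

/-- the limit of the words `G n` -/
theorem chain_limit (h0 : 0 < (G 0).length) (hG : ∀ n, G (n + 1) = G n ++ X n)
    (hX : ∀ n, X n ≠ []) : ∃ v : ℕ → L, ∀ n i, ∀ h : i < (G n).length, (G n)[i] = v i := by
  have hl := chain_length h0 hG hX
  refine ⟨fun i => (G i)[i]'(hl i), ?_⟩
  intro n i h
  rcases le_total i n with h1 | h1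
  · exact (prefix_get (chain_prefix hG h1) i (hl i) h).symm
  · exact prefix_get (chain_prefix hG h1) i h (hl i)

end chain

theorem range_map_prefix {L : Type} {v : ℕ → L} {l : List L} (h : ∀ i, ∀ hi : i < l.length, l[i] = v i) :
    l = (List.range l.length).map v := by
  apply List.ext_getElem
  · simp
  · intro i hi hi'
    rw [h i hi]
    simp

theorem range_map_le {L : Type} (v : ℕ → L) {m n : ℕ} (h : m ≤ n) :
    (List.range m).map v <+: (List.range n).map v := by
  obtain ⟨t, rfl⟩ := Nat.exists_eq_add_of_le h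
  rw [List.range_add, List.map_append]
  exact List.prefix_append _ _

end Pool.Agent.V8H44.SG
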