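import Pool.Agent.V8H44.TS.Two

/-!
Slowing down a word generated by iterating a transducer.
-/

set_option autoImplicit false

namespace Pool.Agent.V8H44.SG

open Pool.Agent.V8H41.DG

/-- the modes: copy, set the mark, rewrite the first letter, rewrite -/
inductive Ph : Type
  | cp : Ph
  | cm : Ph
  | rf : Ph
  | rw : Ph

instance : Finite Ph := by
  refine Finite.of_injective (β := Fin 4)
    (fun x => match x with
      | .cp => 0
      | .cm => 1
      | .rf => 2
      | .rw => 3) ?_
  intro x y h
  cases x <;> cases y <;> simp_all

/-- letters with a mark, the flag of the last letter and the flag of new letters -/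
abbrev Lt (L : Type) : Type := Option (L × Bool × Bool × Bool)

/-- the mark in the rest of the word -/
def dc : Option ℕ → Option ℕ
  | some (i + 1) => some i
  | _ => none

variable {S L : Type}

/-- the word `Y` with a mark -/
def an (f e : Bool) : Option ℕ → List L → List (Lt L)
  | _, [] => []
  | mk, x :: l => some (x, decide (mk = some 0), e && l.isEmpty, f) :: an f e (dc mk) l

theorem an_length (f e : Bool) (l : List L) : ∀ mk, (an f e mk l).length = l.length := by
  induction l with
  | nil => intro mk; rfl
  | cons x l ih => intro mk; simp [an, ih]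

theorem an_none_append (f e : Bool) (A : List L) {B : List L} (hB : B ≠ []) :
    an f e none (A ++ B) = an f false none A ++ an f e none B := by
  induction A with
  | nil => rfl
  | cons x A ih =>
    have h1 : (A ++ B).isEmpty = false := by
      cases A with
      | nil => cases B with
        | nil => exact absurd rfl hB
        | cons y B => rfl
      | cons y A => rfl
    show some (x, _, e && (A ++ B).isEmpty, f) :: an f e none (A ++ B) =
      some (x, _, false && A.isEmpty, f) :: (an f false none A ++ an f e none B)
    rw [ih, h1]
    simp

theorem an_zero_append (f e : Bool) {A : List L} (hA : A ≠ []) {B : List L} (hB : B ≠ []) :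
    an f e (some 0) (A ++ B) = an f false (some 0) A ++ an f e none B := by
  cases A with
  | nil => exact absurd rfl hA
  | cons x A =>
    have h1 : (A ++ B).isEmpty = false := by
      cases A with
      | nil => cases B with
        | nil => exact absurd rfl hB
        | cons y B => rfl
      | cons y A => rfl
    show some (x, _, e && (A ++ B).isEmpty, f) :: an f e none (A ++ B) =
      some (x, _, false && A.isEmpty, f) :: (an f false none A ++ an f e none B)
    rw [an_none_append f e A hB, h1]
    simp

/-- the transitions -/
def dS (δ : S → L → S) (q1 : S) : S × Ph → Lt L → S × Ph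
  | _, none => (q1, .cp)
  | (q, .cp), some (_, m, e, _) => (q, if m = true then (if e = true then .rf else .cm) else .cp)
  | (q, .cm), some _ => (q, .cp)
  | (q, .rf), some (x, _, e, _) => (δ q x, if e = true then .cp else .rw)
  | (q, .rw), some (x, _, e, _) => (δ q x, if e = true then .cp else .rw)

/-- the outputs -/
def oS (out : S → L → List L) (X : List L) : S × Ph → Lt L → List (Lt L)
  | _, none => none :: an true true (some 0) X
  | (_, .cp), some (x, _, e, _) => [some (x, false, e, false)]
  | (_, .cm), some (x, _, e, _) => [some (x, true, e, false)]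
  | (q, .rf), some (x, _, e, _) => an true e (some 0) (out q x)
  | (q, .rw), some (x, _, e, _) => an true e none (out q x)

variable {δ : S → L → S} {out : S → L → List L} {q1 : S} {X : List L}

theorem oS_ne (hne : ∀ q x, out q x ≠ []) (s : S × Ph) (y : Lt L) : oS out X s y ≠ [] := by
  have key : ∀ (e : Bool) (mk : Option ℕ) (q : S) (x : L), an true e mk (out q x) ≠ [] := by
    intro e mk q x h
    have := congrArg List.length h
    rw [an_length] at this
    exact hne q x (List.eq_nil_iff_length_eq_zero.2 this)
  rcases y with _ | ⟨x, m, e, f⟩
  · simp [oS]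
  · obtain ⟨q, ph⟩ := s
    cases ph
    · simp [oS]
    · simp [oS]
    · exact key _ _ _ _
    · exact key _ _ _ _

theorem copy_none (f : Bool) (q : S) (Y : List L) :
    T (dS δ q1) (oS out X) (q, .cp) (an f true none Y) = an false true none Y ∧
      dl (dS δ q1) (q, .cp) (an f true none Y) = (q, .cp) := by
  induction Y with
  | nil => exact ⟨rfl, rfl⟩
  | cons x l ih =>
    have e1 : an f true none (x :: l) = some (x, false, l.isEmpty, f) :: an f true none l := by
      simp [an, dc]
    have e2 : an false true none (x :: l) =
        some (x, false, l.isEmpty, false) :: an false true none l := by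
      simp [an, dc]
    rw [e1, e2, T, dl]
    have e3 : dS δ q1 (q, .cp) (some (x, false, l.isEmpty, f)) = (q, .cp) := by
      simp [dS]
    rw [e3, ih.1, ih.2]
    exact ⟨rfl, rfl⟩

theorem copy_cm (f : Bool) (q : S) {Y : List L} (hY : Y ≠ []) :
    T (dS δ q1) (oS out X) (q, .cm) (an f true none Y) = an false true (some 0) Y ∧
      dl (dS δ q1) (q, .cm) (an f true none Y) = (q, .cp) := by
  cases Y with
  | nil => exact absurd rfl hY
  | cons x l =>
    have e1 : an f true none (x :: l) = some (x, false, l.isEmpty, f) :: an f true none l := by
      simp [an, dc]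
    have e2 : an false true (some 0) (x :: l) =
        some (x, true, l.isEmpty, false) :: an false true none l := by
      simp [an, dc]
    have ih := copy_none (δ := δ) (out := out) (q1 := q1) (X := X) f q l
    rw [e1, e2, T, dl]
    have e3 : dS δ q1 (q, .cm) (some (x, false, l.isEmpty, f)) = (q, .cp) := by
      simp [dS]
    rw [e3, ih.1, ih.2]
    exact ⟨rfl, rfl⟩

theorem copy_mark (f : Bool) (q : S) (Y : List L) : ∀ i, i < Y.length →
    T (dS δ q1) (oS out X) (q, .cp) (an f true (some i) Y) =
      an false true (if i + 1 < Y.length then some (i + 1) else none) Y ∧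
      dl (dS δ q1) (q, .cp) (an f true (some i) Y) =
        (q, if i + 1 < Y.length then .cp else .rf) := by
  induction Y with
  | nil => intro i hi; exact absurd hi (Nat.not_lt_zero _)
  | cons x l ih =>
    intro i hi
    cases i with
    | zero =>
      have e1 : an f true (some 0) (x :: l) = some (x, true, l.isEmpty, f) :: an f true none l := by
        simp [an, dc]
      rw [e1, T, dl]
      cases l with
      | nil =>
        have e3 : dS δ q1 (q, .cp) (some (x, true, ([] : List L).isEmpty, f)) = (q, .rf) := by
          simp [dS]
        rw [e3]
        exact ⟨rfl, rfl⟩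
      | cons y l =>
        have e3 : dS δ q1 (q, .cp) (some (x, true, (y :: l).isEmpty, f)) = (q, .cm) := by
          simp [dS]
        have h2 := copy_cm (δ := δ) (out := out) (q1 := q1) (X := X) f q
          (List.cons_ne_nil y l)
        rw [e3, h2.1, h2.2]
        have h3 : 0 + 1 < (x :: y :: l).length := by simp
        rw [if_pos h3, if_pos h3]
        refine ⟨?_, rfl⟩
        simp [an, dc, oS]
    | succ i =>
      have hi' : i < l.length := by simpa using hi
      have hl : l.isEmpty = false := by
        cases l with
        | nil => exact absurd hi' (Nat.not_lt_zero _)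
        | cons y l => rfl
      have e1 : an f true (some (i + 1)) (x :: l) =
          some (x, false, false, f) :: an f true (some i) l := by
        simp [an, dc, hl]
      have e3 : dS δ q1 (q, .cp) (some (x, false, false, f)) = (q, .cp) := by
        simp [dS]
      rw [e1, T, dl, e3, (ih i hi').1, (ih i hi').2]
      have h3 : (i + 1 + 1 < (x :: l).length) ↔ (i + 1 < l.length) := by simp
      simp only [h3]
      refine ⟨?_, trivial⟩
      by_cases h4 : i + 1 < l.length
      · rw [if_pos h4, if_pos h4]
        simp [an, dc, oS, hl]
      · rw [if_neg h4, if_neg h4]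
        simp [an, dc, oS, hl]

theorem T_ne (hne : ∀ q x, out q x ≠ []) {Y : List L} (hY : Y ≠ []) (q : S) :
    T δ out q Y ≠ [] := by
  cases Y with
  | nil => exact absurd rfl hY
  | cons x l =>
    rw [T]
    intro h
    exact hne q x (List.append_eq_nil_iff.1 h).1

theorem rw_none (hne : ∀ q x, out q x ≠ []) (f : Bool) (Y : List L) : Y ≠ [] → ∀ q,
    T (dS δ q1) (oS out X) (q, .rw) (an f true none Y) = an true true none (T δ out q Y) ∧
      dl (dS δ q1) (q, .rw) (an f true none Y) = (dl δ q Y, .cp) := by
  induction Y with
  | nil => intro h; exact absurd rfl h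
  | cons x l ih =>
    intro _ q
    have e1 : an f true none (x :: l) = some (x, false, l.isEmpty, f) :: an f true none l := by
      simp [an, dc]
    rw [e1, T, dl, T, dl]
    cases l with
    | nil =>
      have e3 : dS δ q1 (q, .rw) (some (x, false, ([] : List L).isEmpty, f)) = (δ q x, .cp) := by
        simp [dS]
      rw [e3]
      simp [an, T, dl, oS]
    | cons y l =>
      have e3 : dS δ q1 (q, .rw) (some (x, false, (y :: l).isEmpty, f)) = (δ q x, .rw) := by
        simp [dS]
      obtain ⟨h1, h2⟩ := ih (List.cons_ne_nil y l) (δ q x)
      rw [e3, h1, h2, an_none_append true true _ (T_ne hne (List.cons_ne_nil y l) _)]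
      exact ⟨rfl, rfl⟩

theorem rf_none (hne : ∀ q x, out q x ≠ []) (f : Bool) {Y : List L} (hY : Y ≠ []) (q : S) :
    T (dS δ q1) (oS out X) (q, .rf) (an f true none Y) = an true true (some 0) (T δ out q Y) ∧
      dl (dS δ q1) (q, .rf) (an f true none Y) = (dl δ q Y, .cp) := by
  cases Y with
  | nil => exact absurd rfl hY
  | cons x l =>
    have e1 : an f true none (x :: l) = some (x, false, l.isEmpty, f) :: an f true none l := by
      simp [an, dc]
    rw [e1, T, dl, T, dl]
    cases l with
    | nil =>
      have e3 : dS δ q1 (q, .rf) (some (x, false, ([] : List L).isEmpty, f)) = (δ q x, .cp) := by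
        simp [dS]
      rw [e3]
      simp [an, T, dl, oS]
    | cons y l =>
      have e3 : dS δ q1 (q, .rf) (some (x, false, (y :: l).isEmpty, f)) = (δ q x, .rw) := by
        simp [dS]
      obtain ⟨h1, h2⟩ := rw_none (δ := δ) (q1 := q1) (X := X) hne f (y :: l)
        (List.cons_ne_nil y l) (δ q x)
      rw [e3, h1, h2, an_zero_append true true (hne q x) (T_ne hne (List.cons_ne_nil y l) _)]
      exact ⟨rfl, rfl⟩

end Pool.Agent.V8H44.SG
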