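import Pool.Agent.V8H44.SG.Main

/-!
Words of slow growth are generated in small space.
-/

set_option autoImplicit false

namespace Pool.Agent.V8H44.SG

open Pool.Agent.V8H41.DG Pool.Agent.V8H44.TS

variable {d p : ℕ} {δ : Fin p → Fin d → Fin p} {q0 : Fin p}
  {out : Fin p → Fin d → List (Fin d)} {a : Fin d} {v : ℕ → Fin d}

theorem add_pow_le (x k : ℕ) : (x + 1) ^ k ≤ 2 ^ k * (x ^ k + 1) := by
  rcases Nat.eq_zero_or_pos x with h | h
  · subst h
    rw [Nat.zero_add, one_pow]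
    have : 0 < 2 ^ k := by positivity
    nlinarith [Nat.zero_le (2 ^ k * 0 ^ k)]
  · calc (x + 1) ^ k ≤ (2 * x) ^ k := Nat.pow_le_pow_left (by omega) _
      _ = 2 ^ k * x ^ k := mul_pow _ _ _
      _ ≤ _ := Nat.mul_le_mul_left _ (Nat.le_succ _)

/-- words of slow growth are generated in small space -/
theorem small_space (hne : ∀ s x, out s x ≠ []) (hv : Iterates (dgsm δ q0 out) a v) {k C : ℕ}
    (hg : ∀ n, ((dgsm δ q0 out)^[n] [a]).length ^ k ≤ C * (n + 1) ^ (k + 1)) :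
    ∃ (C' : ℕ) (f : ℕ → ℕ), (∀ n, f n ^ k ≤ C' * (n + 1)) ∧ Generates v f := by
  obtain ⟨gl, hgl⟩ : ∃ gl : ℕ → ℕ, gl = fun n => ((dgsm δ q0 out)^[n] [a]).length := ⟨_, rfl⟩
  obtain ⟨len, hlen⟩ : ∃ len : ℕ → ℕ, len = rl δ q0 out a := ⟨_, rfl⟩
  have h0 : gl 0 = 1 := by rw [hgl]; rfl
  have h1 : ∀ r, gl (r + 1) = gl r + len r := by
    intro r
    rw [hgl, hlen]
    exact rl_eq hv r
  have hmono : ∀ i j, i ≤ j → len i ≤ len j := by
    intro i j hij
    rw [hlen]
    exact vw_mono hne hij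
  have hpos : 0 < len 0 := by
    rw [hlen]
    exact List.length_pos_iff.2 (tail_ne hv.1 hv.2.1)
  have h2 : ∀ r m, gl r + m * len r ≤ gl (r + m) := by
    intro r m
    induction m with
    | zero => simp
    | succ m ih =>
      rw [← Nat.add_assoc, h1]
      have := hmono r (r + m) (Nat.le_add_right _ _)
      nlinarith
  have h3 : ∀ r, r < gl r := by
    intro r
    induction r with
    | zero => omega
    | succ r ih =>
      rw [h1]
      have := hmono 0 r (Nat.zero_le _)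
      omega
  have h4 : ∀ r, len r ^ k ≤ C * 2 ^ (k + 1) * (r + 1) := by
    intro r
    have h5 : (r + 1) * len r ≤ gl (r + (r + 1)) := by
      have := h2 r (r + 1)
      omega
    have h6 : ((r + 1) * len r) ^ k ≤ C * (r + (r + 1) + 1) ^ (k + 1) := by
      refine (Nat.pow_le_pow_left h5 k).trans ?_
      rw [hgl]
      exact hg _
    have h7 : C * (r + (r + 1) + 1) ^ (k + 1) = (r + 1) ^ k * (C * 2 ^ (k + 1) * (r + 1)) := by
      have : r + (r + 1) + 1 = 2 * (r + 1) := by ring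
      rw [this, mul_pow, pow_succ (r + 1)]
      ring
    rw [mul_pow, h7] at h6
    exact Nat.le_of_mul_le_mul_left h6 (by positivity)
  have hex : ∀ n, ∃ r, n ≤ gl r := fun n => ⟨n, (h3 n).le⟩
  obtain ⟨K, hK⟩ : ∃ K : ℕ → ℕ, ∀ n, n ≤ gl (K n + 1) ∧ K n + 1 ≤ n + 1 := by
    refine ⟨fun n => Nat.find (hex n) - 1, fun n => ?_⟩
    have h5 := Nat.find_spec (hex n)
    have h6 : Nat.find (hex n) ≤ n := Nat.find_min' _ (h3 n).le
    obtain ⟨R, hR⟩ : ∃ R, R = Nat.find (hex n) := ⟨_, rfl⟩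
    rw [← hR] at h5 h6
    show n ≤ gl (Nat.find (hex n) - 1 + 1) ∧ Nat.find (hex n) - 1 + 1 ≤ n + 1
    rw [← hR]
    constructor
    · rcases Nat.eq_zero_or_pos R with h7 | h7
      · rw [h7] at h5 ⊢
        have := h1 0
        show n ≤ gl (0 + 1)
        omega
      · rw [Nat.sub_add_cancel h7]
        exact h5
    · omega
  have hgm : ∀ r s, r ≤ s → gl r ≤ gl s := by
    intro r s hrs
    obtain ⟨m, rfl⟩ := Nat.exists_eq_add_of_le hrs
    have := h2 r m
    omega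
  have hf : ∀ n : ℕ, 1 ≤ n → ∃ k : ℕ, n ≤ ((dgsm δ q0 out)^[k + (len (K n) + 1)] [a]).length ∧
      ((dgsm δ q0 out)^[k + 1] [a]).length ≤
        ((dgsm δ q0 out)^[k] [a]).length + (len (K n) + 1) := by
    intro n _
    refine ⟨K n, ?_, ?_⟩
    · have h5 : n ≤ gl (K n + (len (K n) + 1)) := (hK n).1.trans (hgm _ _ (by omega))
      rw [hgl] at h5
      exact h5
    · have h5 := h1 (K n)
      rw [hgl] at h5
      simp only at h5
      rw [h5]
      omega
  have h5 := space hne hv (fun n => len (K n) + 1) hf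
  refine ⟨10 ^ k * (2 ^ k * (C * 2 ^ (k + 1) + 1)), fun n => 10 * (len (K n) + 1), ?_,
    h5.mono fun n => by show 4 * (len (K n) + 1) + 4 + 2 ≤ 10 * (len (K n) + 1); omega⟩
  intro n
  show (10 * (len (K n) + 1)) ^ k ≤ _
  rw [mul_pow, mul_assoc (10 ^ k)]
  apply Nat.mul_le_mul_left
  refine (add_pow_le _ k).trans ?_
  rw [mul_assoc (2 ^ k)]
  apply Nat.mul_le_mul_left
  have h6 := h4 (K n)
  have h7 : C * 2 ^ (k + 1) * (K n + 1) ≤ C * 2 ^ (k + 1) * (n + 1) :=
    Nat.mul_le_mul_left _ (hK n).2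
  have h8 : (C * 2 ^ (k + 1) + 1) * (n + 1) = C * 2 ^ (k + 1) * (n + 1) + (n + 1) := by ring
  omega

end Pool.Agent.V8H44.SG
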